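import Mathlib

/-!
# FAT colourings with a prescribed fairness parameter

For every `k ≥ 2` and every rational `α` with `0 < α ≤ 1 / (k - 1)` there is a finite connected
graph with FAT chromatic number `k` that has a FAT `k`-colouring with parameter `α`.
-/

namespace Pool.Agent.Results.MP_2d49c6_co.FatPrescribed

open Finset

open Classical in
/-- `e(v, S)`: the number of neighbours of `v` in `S`. -/
noncomputable def e {V : Type} [Fintype V] (G : SimpleGraph V) (v : V) (S : Set V) : ℕ :=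
  (univ.filter fun w => G.Adj v w ∧ w ∈ S).card

open Classical in
/-- The degree of `v`. -/
noncomputable def deg {V : Type} [Fintype V] (G : SimpleGraph V) (v : V) : ℕ :=
  (univ.filter fun w => G.Adj v w).card

/-- The surjective map `c : V → {0, …, k - 1}` is a FAT `k`-colouring with parameter `α ∈ [0, 1]`;
here `β = 1 - (k - 1) α`. -/
structure IsFAT {V : Type} [Fintype V] (G : SimpleGraph V) (k : ℕ) (α : ℝ) (c : V → Fin k) :
    Prop where
  surj : Function.Surjective c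
  mem : 0 ≤ α ∧ α ≤ 1
  out : ∀ v i, c v ≠ i → (e G v {w | c w = i} : ℝ) = α * deg G v
  own : ∀ v i, c v = i → (e G v {w | c w = i} : ℝ) = (1 - (k - 1) * α) * deg G v

/-- The FAT chromatic number: the largest `k` such that `G` admits a FAT `k`-colouring. -/
noncomputable def fatChromatic {V : Type} [Fintype V] (G : SimpleGraph V) : ℕ :=
  sSup {k | ∃ (α : ℝ) (c : V → Fin k), IsFAT G k α c}

section general

variable {V : Type} [Fintype V] {G : SimpleGraph V}

theorem e_pos_of {v w : V} {S : Set V} (h : G.Adj v w) (hw : w ∈ S) : 0 < e G v S := by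
  classical
  rw [e, card_pos]
  exact ⟨w, by simp [h, hw]⟩

theorem exists_of_e_pos {v : V} {S : Set V} (h : 0 < e G v S) : ∃ w, G.Adj v w ∧ w ∈ S := by
  classical
  rw [e, card_pos] at h
  obtain ⟨w, hw⟩ := h
  rw [mem_filter] at hw
  exact ⟨w, hw.2⟩

theorem deg_pos_of {v w : V} (h : G.Adj v w) : 0 < deg G v := by
  classical
  rw [deg, card_pos]
  exact ⟨w, by simp [h]⟩

/-- Closed twins of different colours. -/
theorem twins {k : ℕ} {α : ℝ} {c : V → Fin k} (hc : IsFAT G k α c) {x y : V} (hxy : G.Adj x y)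
    (htw : ∀ z, z ≠ x → z ≠ y → (G.Adj x z ↔ G.Adj y z)) (hne : c x ≠ c y) :
    (α - (1 - (k - 1) * α)) * deg G x = 1 := by
  classical
  have hdeg : deg G y = deg G x := by
    rw [deg, deg]
    refine card_bij' (fun z _ => if z = x then y else z) (fun z _ => if z = y then x else z)
      ?_ ?_ ?_ ?_
    · intro z hz
      rw [mem_filter] at hz
      by_cases hzx : z = x
      · simp [hzx, hxy]
      · have hzy : z ≠ y := hz.2.ne'
        simp only [hzx, if_false, mem_filter, mem_univ, true_and]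
        exact (htw z hzx hzy).2 hz.2
    · intro z hz
      rw [mem_filter] at hz
      by_cases hzy : z = y
      · simp [hzy, hxy.symm]
      · have hzx : z ≠ x := hz.2.ne'
        simp only [hzy, if_false, mem_filter, mem_univ, true_and]
        exact (htw z hzx hzy).1 hz.2
    · intro z hz
      rw [mem_filter] at hz
      by_cases hzx : z = x
      · simp [hzx]
      · have hzy : z ≠ y := hz.2.ne'
        simp [hzx, hzy]
    · intro z hz
      rw [mem_filter] at hz
      by_cases hzy : z = y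
      · simp [hzy]
      · have hzx : z ≠ x := hz.2.ne'
        simp [hzx, hzy]
  have hcount : e G y {w | c w = c x} = e G x {w | c w = c x} + 1 := by
    obtain ⟨S, hS⟩ : ∃ S : Set V, S = {w | c w = c x} := ⟨_, rfl⟩
    have hmem : ∀ z, z ∈ S ↔ c z = c x := fun z => by rw [hS]; rfl
    rw [← hS, e, e]
    have : (univ.filter fun w => G.Adj y w ∧ w ∈ S) =
        insert x (univ.filter fun w => G.Adj x w ∧ w ∈ S) := by
      ext z
      simp only [mem_filter, mem_univ, true_and, mem_insert, hmem]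
      constructor
      · rintro ⟨h1, h2⟩
        by_cases hzx : z = x
        · exact Or.inl hzx
        · exact Or.inr ⟨(htw z hzx h1.ne').2 h1, h2⟩
      · rintro (rfl | ⟨h1, h2⟩)
        · exact ⟨hxy.symm, rfl⟩
        · have hzy : z ≠ y := by rintro rfl; exact hne h2.symm
          exact ⟨(htw z h1.ne' hzy).1 h1, h2⟩
    rw [this, card_insert_of_notMem (by simp)]
  have h1 := hc.out y (c x) (Ne.symm hne)
  have h2 := hc.own x (c x) rfl
  rw [hcount, hdeg] at h1
  push_cast at h1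
  linarith

theorem alpha_pos {k : ℕ} {α : ℝ} {c : V → Fin k} (hG : G.Connected) (hk : 2 ≤ k)
    (hc : IsFAT G k α c) : 0 < α := by
  rcases hc.mem.1.lt_or_eq with h | h
  · exact h
  · exfalso
    have hadj : ∀ u w, G.Adj u w → c u = c w := by
      intro u w huw
      by_contra hne
      have h1 := hc.out u (c w) hne
      have h2 := e_pos_of (S := {z | c z = c w}) huw rfl
      rw [← h, zero_mul] at h1
      have h3 : e G u {z | c z = c w} = 0 := by exact_mod_cast h1
      omega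
    have hreach : ∀ u w, G.Reachable u w → c u = c w := by
      rintro u w ⟨p⟩
      induction p with
      | nil => rfl
      | cons h _ ih => exact (hadj _ _ h).trans ih
    obtain ⟨u, hu⟩ := hc.surj ⟨0, by omega⟩
    obtain ⟨w, hw⟩ := hc.surj ⟨1, by omega⟩
    have := hreach u w (hG.preconnected u w)
    rw [hu, hw, Fin.mk.injEq] at this
    omega

end general

/-! ## The gadget -/

/-- Sizes of the seven cells. -/
def sz (a b : ℕ) : Fin 7 → ℕ :=
  ![1, a, b, a * ((a + b) ^ 2 + (a + b)) - 1, b * ((a + b) ^ 2 + (a + b)) - a + 1,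
    a * ((a + b) ^ 2 + (a + b)), b * ((a + b) ^ 2 + (a + b)) - b]

def fA (c d : Fin 7) : Bool :=
  (c, d) ∈ [((0 : Fin 7), (1 : Fin 7)), (1, 0), (1, 3), (3, 1), (2, 5), (5, 2)]

def fB (c d : Fin 7) : Bool :=
  (c, d) ∈ [((0 : Fin 7), (2 : Fin 7)), (2, 0), (1, 4), (4, 1), (2, 6), (6, 2)]

def cl (c : Fin 7) : Bool := c = 1 ∨ c = 2

def rA (a b : ℕ) : Fin 7 → ℕ :=
  ![0, 0, 0, a * (a + b) - a, a * (a + b), a * (a + b) - b, a * (a + b)]

def rB (a b : ℕ) : Fin 7 → ℕ :=
  ![0, 0, 0, b * (a + b), b * (a + b) - a, b * (a + b), b * (a + b) - b]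

theorem fA_symm (c d : Fin 7) : fA c d = fA d c := by revert c d; decide
theorem fB_symm (c d : Fin 7) : fB c d = fB d c := by revert c d; decide
theorem fA_self (c : Fin 7) : fA c c = false := by revert c; decide
theorem fB_self (c : Fin 7) : fB c c = false := by revert c; decide

/-- The vertices without their colour. -/
abbrev Y (a b : ℕ) := Σ c : Fin 7, Fin (sz a b c)

abbrev X (a b : ℕ) := Y a b × Bool

def relA {a b : ℕ} (x y : X a b) : Prop :=
  x.2 = y.2 ∧ (fA x.1.1 y.1.1 = true ∨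
    (x.1.1 = y.1.1 ∧ (x.1.2.val + y.1.2.val) % sz a b x.1.1 < rA a b x.1.1))

def relB {a b : ℕ} (x y : X a b) : Prop :=
  (x.2 = y.2 ∧ (fB x.1.1 y.1.1 = true ∨
    (cl x.1.1 = true ∧ x.1.1 = y.1.1 ∧ x.1.2.val ≠ y.1.2.val))) ∨
  (x.2 ≠ y.2 ∧ x.1.1 = y.1.1 ∧ (x.1.2.val + y.1.2.val) % sz a b x.1.1 < rB a b x.1.1)

theorem relA_symm {a b : ℕ} {x y : X a b} (h : relA x y) : relA y x := by
  obtain ⟨⟨c, i⟩, β⟩ := x
  obtain ⟨⟨d, j⟩, γ⟩ := y
  obtain ⟨h1, h2⟩ := h
  refine ⟨h1.symm, ?_⟩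
  rcases h2 with h2 | ⟨h2, h3⟩
  · exact Or.inl (by rw [fA_symm]; exact h2)
  · refine Or.inr ⟨h2.symm, ?_⟩
    simp only at h2 h3 ⊢
    subst h2
    rw [add_comm]
    exact h3

theorem relB_symm {a b : ℕ} {x y : X a b} (h : relB x y) : relB y x := by
  obtain ⟨⟨c, i⟩, β⟩ := x
  obtain ⟨⟨d, j⟩, γ⟩ := y
  rcases h with ⟨h1, h2 | ⟨h2, h3, h4⟩⟩ | ⟨h1, h2, h3⟩
  · exact Or.inl ⟨h1.symm, Or.inl (by rw [fB_symm]; exact h2)⟩
  · simp only at h3 h4 h2
    subst h3
    exact Or.inl ⟨h1.symm, Or.inr ⟨h2, rfl, h4.symm⟩⟩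
  · simp only at h2 h3
    subst h2
    refine Or.inr ⟨h1.symm, rfl, ?_⟩
    simp only
    rw [add_comm]
    exact h3

theorem relB_irrefl {a b : ℕ} (x : X a b) : ¬ relB x x := by
  obtain ⟨⟨c, i⟩, β⟩ := x
  rintro (⟨_, h | ⟨_, _, h⟩⟩ | ⟨h, _⟩)
  · rw [fB_self] at h; exact absurd h (by decide)
  · exact h rfl
  · exact h rfl

/-- The graph. -/
def GG (a b k : ℕ) : SimpleGraph (X a b × Fin k) where
  Adj u v := (u.2 ≠ v.2 ∧ relA u.1 v.1) ∨ (u.2 = v.2 ∧ relB u.1 v.1)
  symm := ⟨by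
    rintro u v (⟨h1, h2⟩ | ⟨h1, h2⟩)
    · exact Or.inl ⟨h1.symm, relA_symm h2⟩
    · exact Or.inr ⟨h1.symm, relB_symm h2⟩⟩
  loopless := ⟨by
    rintro u (⟨h1, _⟩ | ⟨_, h2⟩)
    · exact h1 rfl
    · exact relB_irrefl _ h2⟩

theorem count_mod (n r v : ℕ) (hr : r ≤ n) :
    ∑ i : Fin n, (if (v + i.val) % n < r then 1 else 0) = r := by
  rw [Finset.sum_range (fun i => if (v + i) % n < r then 1 else 0) |>.symm]
  rw [← card_filter]
  have hper : Function.Periodic (fun x => x % n < r) n := by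
    intro x
    simp
  have h1 := Nat.filter_Ico_card_eq_of_periodic v n (fun x => x % n < r) hper
  have h2 : ((range n).filter (fun i => (v + i) % n < r)).card =
      ((Ico v (v + n)).filter (fun x => x % n < r)).card := by
    refine card_bij (fun i _ => v + i) ?_ ?_ ?_
    · intro i hi
      simp only [mem_filter, mem_range, mem_Ico] at hi ⊢
      exact ⟨⟨by omega, by omega⟩, hi.2⟩
    · intro i _ j _ h
      omega
    · intro x hx
      simp only [mem_filter, mem_Ico] at hx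
      refine ⟨x - v, ?_, by omega⟩
      simp only [mem_filter, mem_range]
      rw [show v + (x - v) = x by omega]
      exact ⟨by omega, hx.2⟩
  rw [h2, h1, Nat.count_eq_card_filter_range]
  have h3 : (range n).filter (fun x => x % n < r) = range r := by
    ext x
    simp only [mem_filter, mem_range]
    constructor
    · rintro ⟨h4, h5⟩
      rwa [Nat.mod_eq_of_lt h4] at h5
    · intro h4
      exact ⟨by omega, by rw [Nat.mod_eq_of_lt (by omega)]; exact h4⟩
  rw [h3, card_range]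

theorem count_ne (n : ℕ) (i : Fin n) :
    ∑ j : Fin n, (if i.val ≠ j.val then 1 else 0) = n - 1 := by
  rw [← card_filter]
  have : (univ.filter fun j : Fin n => i.val ≠ j.val) = univ.erase i := by
    ext j
    simp only [mem_filter, mem_univ, true_and, mem_erase, and_true, Ne, Fin.ext_iff]
    exact ⟨fun h h' => h h'.symm, fun h h' => h h'.symm⟩
  rw [this, card_erase_of_mem (mem_univ i), card_univ, Fintype.card_fin]

open Classical in
theorem count_relA {a b : ℕ} (x : X a b) (hr : rA a b x.1.1 ≤ sz a b x.1.1) :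
    ∑ y : X a b, (if relA x y then 1 else 0) =
      ∑ d : Fin 7, (if fA x.1.1 d then sz a b d else 0) + rA a b x.1.1 := by
  obtain ⟨⟨c, i⟩, β⟩ := x
  simp only at hr ⊢
  rw [Fintype.sum_prod_type, Fintype.sum_sigma]
  have h1 : ∀ (d : Fin 7) (j : Fin (sz a b d)),
      ∑ γ : Bool, (if relA ((⟨c, i⟩, β) : X a b) (⟨d, j⟩, γ) then 1 else 0) =
        (if fA c d = true ∨ (c = d ∧ (i.val + j.val) % sz a b c < rA a b c) then 1 else 0) := by
    intro d j
    rw [Fintype.sum_eq_single β]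
    · simp [relA]
    · intro γ hγ
      rw [if_neg]
      rintro ⟨h, _⟩
      exact hγ h.symm
  simp only [h1]
  have h2 : ∀ d : Fin 7, ∑ j : Fin (sz a b d),
      (if fA c d = true ∨ (c = d ∧ (i.val + j.val) % sz a b c < rA a b c) then 1 else 0) =
      (if fA c d then sz a b d else 0) + (if c = d then rA a b c else 0) := by
    intro d
    by_cases hcd : c = d
    · subst hcd
      simp only [fA_self, Bool.false_eq_true, false_or, true_and, if_false, if_true, zero_add]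
      exact count_mod _ _ _ hr
    · simp [hcd]
  simp only [h2]
  rw [sum_add_distrib]
  simp

open Classical in
theorem count_relB {a b : ℕ} (x : X a b) (hr : rB a b x.1.1 ≤ sz a b x.1.1) :
    ∑ y : X a b, (if relB x y then 1 else 0) =
      ∑ d : Fin 7, (if fB x.1.1 d then sz a b d else 0) +
        ((if cl x.1.1 then sz a b x.1.1 - 1 else 0) + rB a b x.1.1) := by
  obtain ⟨⟨c, i⟩, β⟩ := x
  simp only at hr ⊢
  rw [Fintype.sum_prod_type, Fintype.sum_sigma]
  have h1 : ∀ (d : Fin 7) (j : Fin (sz a b d)),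
      ∑ γ : Bool, (if relB ((⟨c, i⟩, β) : X a b) (⟨d, j⟩, γ) then 1 else 0) =
        (if fB c d = true ∨ (cl c = true ∧ c = d ∧ i.val ≠ j.val) then 1 else 0) +
        (if c = d ∧ (i.val + j.val) % sz a b c < rB a b c then 1 else 0) := by
    intro d j
    have h0 : ∑ γ : Bool, (if relB ((⟨c, i⟩, β) : X a b) (⟨d, j⟩, γ) then 1 else 0) =
        (if relB ((⟨c, i⟩, β) : X a b) (⟨d, j⟩, β) then 1 else 0) +
        (if relB ((⟨c, i⟩, β) : X a b) (⟨d, j⟩, !β) then 1 else 0) := by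
      cases β
      · rw [Fintype.sum_bool, add_comm]; rfl
      · rw [Fintype.sum_bool]; rfl
    rw [h0]
    congr 1
    · simp [relB]
    · have : β ≠ !β := by cases β <;> decide
      simp [relB]
  simp only [h1]
  have h2 : ∀ d : Fin 7, ∑ j : Fin (sz a b d),
      ((if fB c d = true ∨ (cl c = true ∧ c = d ∧ i.val ≠ j.val) then 1 else 0) +
        (if c = d ∧ (i.val + j.val) % sz a b c < rB a b c then 1 else 0)) =
      (if fB c d then sz a b d else 0) +
        (if c = d then ((if cl c then sz a b c - 1 else 0) + rB a b c) else 0) := by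
    intro d
    rw [sum_add_distrib]
    by_cases hcd : c = d
    · subst hcd
      simp only [fB_self, Bool.false_eq_true, false_or, true_and, if_false, if_true, zero_add]
      rw [count_mod _ _ _ hr]
      congr 1
      by_cases hcl : cl c = true
      · simp only [hcl, true_and, if_true]
        exact count_ne _ i
      · simp [hcl]
    · simp [hcd]
  simp only [h2]
  rw [sum_add_distrib]
  simp

/-- The scale of a cell. -/
def tau (a b : ℕ) : Fin 7 → ℕ :=
  ![1, (a + b) ^ 2 + (a + b), (a + b) ^ 2 + (a + b), a + b, a + b, a + b, a + b]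

theorem facts {a b : ℕ} (ha : 2 ≤ a) (hb : 2 ≤ b) :
    a * (a + b) + a ≤ b * ((a + b) ^ 2 + (a + b)) ∧
    b * (a + b) + 1 ≤ a * ((a + b) ^ 2 + (a + b)) ∧
    a * (a + b) + b ≤ b * ((a + b) ^ 2 + (a + b)) ∧
    b * (a + b) ≤ b * ((a + b) ^ 2 + (a + b)) ∧
    a * (a + b) + 1 ≤ a * ((a + b) ^ 2 + (a + b)) ∧
    a ≤ a * (a + b) ∧ b ≤ a * (a + b) ∧ a ≤ b * (a + b) ∧ b ≤ b * (a + b) := by
  obtain ⟨a, rfl⟩ : ∃ a', a = a' + 2 := ⟨a - 2, by omega⟩
  obtain ⟨b, rfl⟩ : ∃ b', b = b' + 2 := ⟨b - 2, by omega⟩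
  refine ⟨?_, ?_, ?_, ?_, ?_, ?_, ?_, ?_, ?_⟩
  · nlinarith [Nat.zero_le (a * b), Nat.zero_le (a * a), Nat.zero_le (b * b),
      Nat.zero_le (b * (a + b + 4) ^ 2), Nat.zero_le (b * (a + b + 4))]
  · nlinarith [Nat.zero_le (a * b), Nat.zero_le (a * a), Nat.zero_le (b * b),
      Nat.zero_le (a * (a + b + 4) ^ 2), Nat.zero_le (a * (a + b + 4))]
  · nlinarith [Nat.zero_le (a * b), Nat.zero_le (a * a), Nat.zero_le (b * b),
      Nat.zero_le (b * (a + b + 4) ^ 2), Nat.zero_le (b * (a + b + 4))]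
  · nlinarith [Nat.zero_le (a * b), Nat.zero_le (a * a), Nat.zero_le (b * b),
      Nat.zero_le (b * (a + b + 4) ^ 2), Nat.zero_le (b * (a + b + 4))]
  · nlinarith [Nat.zero_le (a * b), Nat.zero_le (a * a), Nat.zero_le (b * b),
      Nat.zero_le (a * (a + b + 4) ^ 2), Nat.zero_le (a * (a + b + 4))]
  · nlinarith [Nat.zero_le (a * b), Nat.zero_le (a * a), Nat.zero_le (b * b)]
  · nlinarith [Nat.zero_le (a * b), Nat.zero_le (a * a), Nat.zero_le (b * b)]
  · nlinarith [Nat.zero_le (a * b), Nat.zero_le (a * a), Nat.zero_le (b * b)]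
  · nlinarith [Nat.zero_le (a * b), Nat.zero_le (a * a), Nat.zero_le (b * b)]

theorem rA_le {a b : ℕ} (ha : 2 ≤ a) (hb : 2 ≤ b) (c : Fin 7) : rA a b c ≤ sz a b c := by
  obtain ⟨f1, f2, f3, f4, f5, f6, f7, f8, f9⟩ := facts ha hb
  fin_cases c <;> simp [rA, sz] <;> omega

theorem rB_le {a b : ℕ} (ha : 2 ≤ a) (hb : 2 ≤ b) (c : Fin 7) : rB a b c ≤ sz a b c := by
  obtain ⟨f1, f2, f3, f4, f5, f6, f7, f8, f9⟩ := facts ha hb
  fin_cases c <;> simp [rB, sz] <;> omega

theorem sumA {a b : ℕ} (ha : 2 ≤ a) (hb : 2 ≤ b) (c : Fin 7) :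
    ∑ d : Fin 7, (if fA c d then sz a b d else 0) + rA a b c = a * tau a b c := by
  obtain ⟨f1, f2, f3, f4, f5, f6, f7, f8, f9⟩ := facts ha hb
  fin_cases c <;> simp [rA, sz, tau, fA, Fin.sum_univ_succ] <;> omega

theorem sumB {a b : ℕ} (ha : 2 ≤ a) (hb : 2 ≤ b) (c : Fin 7) :
    ∑ d : Fin 7, (if fB c d then sz a b d else 0) +
      ((if cl c then sz a b c - 1 else 0) + rB a b c) = b * tau a b c := by
  obtain ⟨f1, f2, f3, f4, f5, f6, f7, f8, f9⟩ := facts ha hb
  fin_cases c <;> simp [rB, sz, tau, fB, cl, Fin.sum_univ_succ] <;> omega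

theorem e_GG {a b k : ℕ} (ha : 2 ≤ a) (hb : 2 ≤ b) (v : X a b × Fin k) (j : Fin k) :
    e (GG a b k) v {w | w.2 = j} =
      if v.2 = j then b * tau a b v.1.1.1 else a * tau a b v.1.1.1 := by
  classical
  obtain ⟨x, i⟩ := v
  obtain ⟨S, hS⟩ : ∃ S : Set (X a b × Fin k), S = {w | w.2 = j} := ⟨_, rfl⟩
  have hmem : ∀ w, w ∈ S ↔ w.2 = j := fun w => by rw [hS]; rfl
  rw [← hS, e, card_filter, Fintype.sum_prod_type]
  have h1 : ∀ y : X a b, ∑ l : Fin k,
      (if (GG a b k).Adj (x, i) (y, l) ∧ (y, l) ∈ S then 1 else 0) =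
        if (GG a b k).Adj (x, i) (y, j) then 1 else 0 := by
    intro y
    rw [Fintype.sum_eq_single j]
    · simp [hmem]
    · intro l hl
      rw [if_neg]
      rintro ⟨_, h⟩
      exact hl ((hmem _).1 h)
  rw [sum_congr rfl (fun y _ => h1 y)]
  simp only
  by_cases hij : i = j
  · rw [if_pos hij, ← sumB ha hb, ← count_relB x (rB_le ha hb _)]
    refine sum_congr rfl (fun y _ => ?_)
    simp [GG, hij]
  · rw [if_neg hij, ← sumA ha hb, ← count_relA x (rA_le ha hb _)]
    refine sum_congr rfl (fun y _ => ?_)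
    simp [GG, hij]

theorem deg_eq_sum {V : Type} [Fintype V] {k : ℕ} (G : SimpleGraph V) (c : V → Fin k) (v : V) :
    deg G v = ∑ i, e G v {w | c w = i} := by
  classical
  rw [deg, card_eq_sum_card_fiberwise (f := c) (t := univ) (fun _ _ => mem_coe.2 (mem_univ _))]
  refine sum_congr rfl (fun i _ => ?_)
  rw [e, filter_filter]
  congr 1
  ext w
  simp

theorem deg_GG {a b k : ℕ} (ha : 2 ≤ a) (hb : 2 ≤ b) (v : X a b × Fin k) :
    deg (GG a b k) v = ((k - 1) * a + b) * tau a b v.1.1.1 := by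
  rw [deg_eq_sum _ (fun w => w.2) v]
  simp only [e_GG ha hb]
  rw [← add_sum_erase univ _ (mem_univ v.2), if_pos rfl]
  rw [sum_congr rfl (fun i hi => if_neg (fun h => (mem_erase.1 hi).1 h.symm))]
  rw [sum_const, card_erase_of_mem (mem_univ _), card_univ, Fintype.card_fin, smul_eq_mul]
  ring

theorem tau_pos {a b : ℕ} (ha : 2 ≤ a) (c : Fin 7) : 0 < tau a b c := by
  fin_cases c <;> simp [tau] <;> omega

theorem fat_GG {a b k : ℕ} (ha : 2 ≤ a) (hb : 2 ≤ b) (hk : 2 ≤ k) :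
    IsFAT (GG a b k) k ((a : ℝ) / ((k - 1) * a + b)) (fun w => w.2) := by
  have hk1 : (1 : ℝ) ≤ (k : ℝ) - 1 := by
    have : (2 : ℝ) ≤ k := by exact_mod_cast hk
    linarith
  have ha1 : (0 : ℝ) < a := by exact_mod_cast (show 0 < a by omega)
  have hb1 : (0 : ℝ) < b := by exact_mod_cast (show 0 < b by omega)
  have hden : (0 : ℝ) < (k - 1) * a + b := by positivity
  have hcast : ((k - 1 : ℕ) : ℝ) = (k : ℝ) - 1 := by
    rw [Nat.cast_sub (by omega)]
    simp
  refine ⟨?_, ⟨by positivity, ?_⟩, ?_, ?_⟩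
  · intro i
    exact ⟨((⟨0, ⟨0, by simp [sz]⟩⟩, true), i), rfl⟩
  · rw [div_le_one hden]
    nlinarith
  · intro v i hi
    rw [e_GG ha hb, if_neg hi, deg_GG ha hb]
    push_cast
    rw [hcast]
    field_simp
  · intro v i hi
    rw [e_GG ha hb, if_pos hi, deg_GG ha hb]
    push_cast
    rw [hcast]
    field_simp
    ring

/-- The root vertices in cell `4`. -/
def rt {a b k : ℕ} (β : Bool) (i : Fin k) : X a b × Fin k :=
  ((⟨4, ⟨0, by simp [sz]⟩⟩, β), i)

theorem cases7 (c : Fin 7) : c = 0 ∨ c = 1 ∨ c = 2 ∨ c = 3 ∨ c = 4 ∨ c = 5 ∨ c = 6 := by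
  revert c; decide

theorem sz4_pos {a b : ℕ} : 0 < sz a b 4 := by simp [sz]

theorem conn_GG {a b k : ℕ} (ha : 2 ≤ a) (hb : 2 ≤ b) (hk : 2 ≤ k) : (GG a b k).Connected := by
  obtain ⟨f1, f2, f3, f4, f5, f6, f7, f8, f9⟩ := facts ha hb
  have hne : ∀ i : Fin k, ∃ j : Fin k, j ≠ i := by
    intro i
    by_cases hi : i.val = 0
    · exact ⟨⟨1, by omega⟩, fun h => by rw [← h] at hi; simp at hi⟩
    · exact ⟨⟨0, by omega⟩, fun h => by rw [← h] at hi; simp at hi⟩
  -- roots are connected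
  have hA4 : 0 < rA a b 4 := by simp [rA]; omega
  have hB4 : 0 < rB a b 4 := by
    have : a < b * (a + b) := by nlinarith
    simp [rB]; omega
  have hroot1 : ∀ β (i j : Fin k), (GG a b k).Reachable (rt β i) (rt β j) := by
    intro β i j
    by_cases hij : i = j
    · rw [hij]
    · refine SimpleGraph.Adj.reachable (Or.inl ⟨hij, rfl, Or.inr ⟨rfl, ?_⟩⟩)
      simp [rt, hA4]
  have hroot2 : ∀ β γ (i j : Fin k), (GG a b k).Reachable (rt β i) (rt γ j) := by
    intro β γ i j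
    by_cases hβ : β = γ
    · rw [hβ]; exact hroot1 γ i j
    · refine (SimpleGraph.Adj.reachable ?_ : (GG a b k).Reachable (rt β i) (rt γ i)).trans
        (hroot1 γ i j)
      refine Or.inr ⟨rfl, Or.inr ⟨hβ, rfl, ?_⟩⟩
      simp [rt, hB4]
  -- S vertices
  have hS : ∀ (s : Fin (sz a b 1)) β i,
      (GG a b k).Adj ((⟨1, s⟩, β), i) (rt β i) := by
    intro s β i
    exact Or.inr ⟨rfl, Or.inl ⟨rfl, Or.inl (show fB 1 4 = true by decide)⟩⟩
  have ho : ∀ (o : Fin (sz a b 0)) β i, ∃ w : X a b × Fin k,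
      (GG a b k).Adj ((⟨0, o⟩, β), i) w ∧ (GG a b k).Adj w (rt β w.2) ∧ w.1.2 = β := by
    intro o β i
    obtain ⟨j, hj⟩ := hne i
    refine ⟨((⟨1, ⟨0, by simp [sz]; omega⟩⟩, β), j), ?_, hS _ β j, rfl⟩
    exact Or.inl ⟨hj.symm, rfl, Or.inl (show fA 0 1 = true by decide)⟩
  have hreachO : ∀ (o : Fin (sz a b 0)) β i,
      (GG a b k).Reachable ((⟨0, o⟩, β), i) (rt β i) := by
    intro o β i
    obtain ⟨w, h1, h2, _⟩ := ho o β i
    exact (h1.reachable.trans h2.reachable).trans (hroot1 β _ _)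
  have hT : ∀ (t : Fin (sz a b 2)) β i,
      (GG a b k).Reachable ((⟨2, t⟩, β), i) (rt β i) := by
    intro t β i
    have h1 : (GG a b k).Adj ((⟨2, t⟩, β), i) ((⟨0, ⟨0, by simp [sz]⟩⟩, β), i) :=
      Or.inr ⟨rfl, Or.inl ⟨rfl, Or.inl (show fB 2 0 = true by decide)⟩⟩
    exact h1.reachable.trans (hreachO _ β i)
  have hs1 : 0 < sz a b 1 := by simp [sz]; omega
  have hs2 : 0 < sz a b 2 := by simp [sz]; omega
  have hall : ∀ v : X a b × Fin k, (GG a b k).Reachable v (rt v.1.2 v.2) := by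
    rintro ⟨⟨⟨c, i⟩, β⟩, l⟩
    obtain ⟨l', hl'⟩ := hne l
    have hc : c = 0 ∨ c = 1 ∨ c = 2 ∨ c = 3 ∨ c = 4 ∨ c = 5 ∨ c = 6 := cases7 c
    rcases hc with rfl | rfl | rfl | rfl | rfl | rfl | rfl
    · exact hreachO i β l
    · exact (hS i β l).reachable
    · exact hT i β l
    · have h1 : (GG a b k).Adj ((⟨3, i⟩, β), l) ((⟨1, ⟨0, hs1⟩⟩, β), l') :=
        Or.inl ⟨hl'.symm, rfl, Or.inl (show fA 3 1 = true by decide)⟩
      exact (h1.reachable.trans (hS _ β l').reachable).trans (hroot1 β _ _)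
    · have h1 : (GG a b k).Adj ((⟨4, i⟩, β), l) ((⟨1, ⟨0, hs1⟩⟩, β), l) :=
        Or.inr ⟨rfl, Or.inl ⟨rfl, Or.inl (show fB 4 1 = true by decide)⟩⟩
      exact h1.reachable.trans (hS _ β l).reachable
    · have h1 : (GG a b k).Adj ((⟨5, i⟩, β), l) ((⟨2, ⟨0, hs2⟩⟩, β), l') :=
        Or.inl ⟨hl'.symm, rfl, Or.inl (show fA 5 2 = true by decide)⟩
      exact (h1.reachable.trans (hT _ β l')).trans (hroot1 β _ _)
    · have h1 : (GG a b k).Adj ((⟨6, i⟩, β), l) ((⟨2, ⟨0, hs2⟩⟩, β), l) :=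
        Or.inr ⟨rfl, Or.inl ⟨rfl, Or.inl (show fB 6 2 = true by decide)⟩⟩
      exact h1.reachable.trans (hT _ β l)
  rw [SimpleGraph.connected_iff_exists_forall_reachable]
  refine ⟨rt true ⟨0, by omega⟩, fun w => ?_⟩
  exact ((hall w).trans (hroot2 _ _ _ _)).symm

/-- The vertices of a clique cell with the same copy and the same colour are closed twins. -/
theorem cell_twins {a b k : ℕ} {c : Fin 7} (hA : rA a b c = 0)
    (hB : rB a b c = 0) (s s' : Fin (sz a b c)) (β : Bool) (i : Fin k)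
    (z : X a b × Fin k) (hz : z ≠ ((⟨c, s⟩, β), i)) (hz' : z ≠ ((⟨c, s'⟩, β), i)) :
    (GG a b k).Adj ((⟨c, s⟩, β), i) z ↔ (GG a b k).Adj ((⟨c, s'⟩, β), i) z := by
  obtain ⟨⟨⟨d, j⟩, γ⟩, l⟩ := z
  have key : ∀ r r' : Fin (sz a b c), (⟨⟨⟨d, j⟩, γ⟩, l⟩ : X a b × Fin k) ≠ ((⟨c, r'⟩, β), i) →
      (GG a b k).Adj ((⟨c, r⟩, β), i) ((⟨d, j⟩, γ), l) →
      (GG a b k).Adj ((⟨c, r'⟩, β), i) ((⟨d, j⟩, γ), l) := by
    intro r r' hne h
    rcases h with ⟨h1, h2, h3 | ⟨h3, h4⟩⟩ | ⟨h1, ⟨h2, h3 | ⟨h3, h4, h5⟩⟩ | ⟨h2, h3, h4⟩⟩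
    · exact Or.inl ⟨h1, h2, Or.inl h3⟩
    · simp only at h4
      rw [hA] at h4
      omega
    · exact Or.inr ⟨h1, Or.inl ⟨h2, Or.inl h3⟩⟩
    · refine Or.inr ⟨h1, Or.inl ⟨h2, Or.inr ⟨h3, h4, ?_⟩⟩⟩
      simp only at h1 h2 h4 ⊢
      subst h1 h2 h4
      intro h6
      apply hne
      rw [show j = r' from Fin.ext h6.symm]
    · simp only at h4
      rw [hB] at h4
      omega
  exact ⟨key s s' hz', key s' s hz⟩

theorem upper {a b k : ℕ} (ha : 2 ≤ a) (hb : 2 ≤ b) (hk : 2 ≤ k) {K : ℕ} {α : ℝ}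
    {c : X a b × Fin k → Fin K} (hc : IsFAT (GG a b k) K α c) : K ≤ k := by
  by_contra hlt
  push Not at hlt
  have hα := alpha_pos (conn_GG ha hb hk) (by omega) hc
  have hs0 : 0 < sz a b 0 := by simp [sz]
  have hs1 : 0 < sz a b 1 := by simp [sz]; omega
  have hs2 : 1 < sz a b 2 := by simp [sz]; omega
  set i0 : Fin k := ⟨0, by omega⟩ with hi0
  set o : X a b × Fin k := ((⟨0, ⟨0, hs0⟩⟩, true), i0) with ho
  have hg : 0 < (k - 1) * a + b := by positivity
  have hdego : deg (GG a b k) o = (k - 1) * a + b := by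
    rw [deg_GG ha hb]
    simp [ho, tau]
  have hgR : (0 : ℝ) < deg (GG a b k) o := by
    rw [hdego]
    exact_mod_cast hg
  -- blocks are monochromatic
  have hmono : ∀ d : Fin 7, cl d = true → ∀ (s s' : Fin (sz a b d)) (β : Bool) (i : Fin k),
      c ((⟨d, s⟩, β), i) = c ((⟨d, s'⟩, β), i) := by
    intro d hd s s' β i
    by_contra hne
    have hss : s.val ≠ s'.val := by
      intro h
      apply hne
      rw [Fin.ext h]
    have hd12 : d = 1 ∨ d = 2 := by simpa [cl] using hd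
    have hA : rA a b d = 0 := by rcases hd12 with rfl | rfl <;> simp [rA]
    have hB : rB a b d = 0 := by rcases hd12 with rfl | rfl <;> simp [rB]
    obtain ⟨N, hN⟩ : ∃ N, N = (a + b) ^ 2 + (a + b) := ⟨_, rfl⟩
    have htau : tau a b d = N := by rcases hd12 with rfl | rfl <;> simp [tau, hN]
    have h1 := twins hc (x := ((⟨d, s⟩, β), i)) (y := ((⟨d, s'⟩, β), i))
      (Or.inr ⟨rfl, Or.inl ⟨rfl, Or.inr ⟨hd, rfl, hss⟩⟩⟩)
      (fun z hz hz' => cell_twins hA hB s s' β i z hz hz') hne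
    rw [deg_GG ha hb] at h1
    simp only at h1
    rw [htau] at h1
    obtain ⟨i1, hi1⟩ : ∃ i1 : Fin K, c o ≠ i1 := by
      by_cases h : c o = ⟨0, by omega⟩
      · exact ⟨⟨1, by omega⟩, fun h' => by rw [h, Fin.mk.injEq] at h'; omega⟩
      · exact ⟨_, h⟩
    have e1 := hc.out o i1 hi1
    have e2 := hc.own o (c o) rfl
    rw [hdego] at e1 e2
    have e3 : ((e (GG a b k) o {w | c w = i1} : ℝ) - e (GG a b k) o {w | c w = c o}) *
        (N : ℝ) = 1 := by
      rw [e1, e2]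
      refine Eq.trans ?_ h1
      push_cast
      ring
    have e4 : ((e (GG a b k) o {w | c w = i1} : ℤ) - e (GG a b k) o {w | c w = c o}) *
        (N : ℤ) = 1 := by
      exact_mod_cast e3
    have e5 : (N : ℤ) ∣ 1 := Dvd.intro_left _ e4
    have e6 : N ∣ 1 := by exact_mod_cast e5
    have e7 := Nat.le_of_dvd one_pos e6
    have e8 : 0 ≤ (a + b) ^ 2 := Nat.zero_le _
    omega
  -- own colour
  have hβ : 0 < (1 - ((K : ℝ) - 1) * α) := by
    have h1 : (GG a b k).Adj ((⟨2, ⟨0, by omega⟩⟩, true), i0) ((⟨2, ⟨1, hs2⟩⟩, true), i0) :=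
      Or.inr ⟨rfl, Or.inl ⟨rfl, Or.inr ⟨show cl 2 = true by decide, rfl, by simp⟩⟩⟩
    have h2 := hc.own ((⟨2, ⟨0, by omega⟩⟩, true), i0) _ rfl
    have h3 := e_pos_of (S := {w | c w = c ((⟨2, ⟨0, by omega⟩⟩, true), i0)}) h1
      (hmono 2 (show cl 2 = true by decide) _ _ true i0)
    have h4 : (0 : ℝ) < e (GG a b k) ((⟨2, ⟨0, by omega⟩⟩, true), i0)
      {w | c w = c ((⟨2, ⟨0, by omega⟩⟩, true), i0)} := by exact_mod_cast h3
    rw [h2] at h4
    by_contra hneg
    push Not at hneg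
    have := mul_nonpos_of_nonpos_of_nonneg hneg
      (Nat.cast_nonneg (α := ℝ) (deg (GG a b k) ((⟨2, ⟨0, by omega⟩⟩, true), i0)))
    linarith
  -- all colours appear
  have hex : ∀ i : Fin K, ∃ w, (GG a b k).Adj o w ∧ c w = i := by
    intro i
    have h1 : 0 < e (GG a b k) o {w | c w = i} := by
      have h2 : (0 : ℝ) < e (GG a b k) o {w | c w = i} := by
        by_cases hi : c o = i
        · rw [hc.own o i hi]
          positivity
        · rw [hc.out o i hi]
          positivity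
      exact_mod_cast h2
    obtain ⟨w, h3, h4⟩ := exists_of_e_pos h1
    exact ⟨w, h3, h4⟩
  let φ : Fin k → Fin K := fun j =>
    if j = i0 then c ((⟨2, ⟨0, by omega⟩⟩, true), i0) else c ((⟨1, ⟨0, hs1⟩⟩, true), j)
  have hsurj : Function.Surjective φ := by
    intro i
    obtain ⟨⟨⟨⟨d, j⟩, γ⟩, l⟩, h1, h2⟩ := hex i
    rcases h1 with ⟨h1, h3, h4 | ⟨h4, h5⟩⟩ | ⟨h1, ⟨h3, h4 | ⟨h4, h5, h6⟩⟩ | ⟨h3, h4, h5⟩⟩
    · have hd : d = 1 := by
        have : ∀ d : Fin 7, fA 0 d = true → d = 1 := by decide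
        exact this d h4
      subst hd
      simp only [ho] at h1 h3
      subst h3
      refine ⟨l, ?_⟩
      simp only [φ]
      rw [if_neg (Ne.symm h1), ← h2]
      exact hmono 1 (by decide) _ _ true l
    · simp [ho, rA] at h5
    · have hd : d = 2 := by
        have : ∀ d : Fin 7, fB 0 d = true → d = 2 := by decide
        exact this d h4
      subst hd
      simp only [ho] at h1 h3
      subst h3
      refine ⟨i0, ?_⟩
      simp only [φ, if_true]
      rw [← h2, ← h1]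
      exact hmono 2 (by decide) _ _ true i0
    · simp [ho, cl] at h4
    · simp [ho, rB] at h5
  have := Fintype.card_le_of_surjective φ hsurj
  rw [Fintype.card_fin, Fintype.card_fin] at this
  omega

theorem card_bound {V : Type} [Fintype V] {G : SimpleGraph V} {K : ℕ} {α : ℝ} {c : V → Fin K}
    (hc : IsFAT G K α c) : K ≤ Fintype.card V := by
  have := Fintype.card_le_of_surjective c hc.surj
  rwa [Fintype.card_fin] at this

theorem fat_complete {k : ℕ} (hk : 2 ≤ k) :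
    IsFAT (⊤ : SimpleGraph (Fin k)) k (1 / ((k : ℝ) - 1)) (fun v => v) := by
  have hk1 : (1 : ℝ) ≤ (k : ℝ) - 1 := by
    have : (2 : ℝ) ≤ k := by exact_mod_cast hk
    linarith
  have he : ∀ v i : Fin k, e (⊤ : SimpleGraph (Fin k)) v {w | w = i} = if v = i then 0 else 1 := by
    classical
    intro v i
    obtain ⟨S, hS⟩ : ∃ S : Set (Fin k), S = {w | w = i} := ⟨_, rfl⟩
    have hmem : ∀ w, w ∈ S ↔ w = i := fun w => by rw [hS]; rfl
    obtain ⟨G, hG⟩ : ∃ G : SimpleGraph (Fin k), G = ⊤ := ⟨_, rfl⟩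
    have hadj : ∀ v w, G.Adj v w ↔ v ≠ w := fun v w => by rw [hG]; rfl
    rw [← hS, ← hG, e]
    by_cases h : v = i
    · rw [if_pos h, card_eq_zero, eq_empty_iff_forall_notMem]
      intro w hw
      obtain ⟨_, h1, h2⟩ := mem_filter.1 hw
      rw [hmem] at h2
      rw [hadj] at h1
      exact h1 (h.trans h2.symm)
    · rw [if_neg h, card_eq_one]
      refine ⟨i, ?_⟩
      ext w
      simp only [mem_filter, mem_univ, true_and, mem_singleton, hmem, hadj]
      exact ⟨fun h1 => h1.2, fun h1 => ⟨fun h2 => h (h2.trans h1), h1⟩⟩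
  have hdeg : ∀ v : Fin k, deg (⊤ : SimpleGraph (Fin k)) v = k - 1 := by
    intro v
    rw [deg_eq_sum _ (fun w => w) v]
    simp only [he]
    rw [← add_sum_erase univ _ (mem_univ v), if_pos rfl]
    rw [sum_congr rfl (fun i hi => if_neg (fun h => (mem_erase.1 hi).1 h.symm))]
    rw [sum_const, card_erase_of_mem (mem_univ _), card_univ, Fintype.card_fin, smul_eq_mul]
    omega
  have hcast : ((k - 1 : ℕ) : ℝ) = (k : ℝ) - 1 := by
    rw [Nat.cast_sub (by omega)]
    simp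
  refine ⟨fun i => ⟨i, rfl⟩, ⟨by positivity, ?_⟩, ?_, ?_⟩
  · rw [div_le_one (by linarith)]
    exact hk1
  · intro v i hi
    rw [he, if_neg hi, hdeg, hcast]
    have : (k : ℝ) - 1 ≠ 0 := by linarith
    field_simp
    simp
  · intro v i hi
    rw [he, if_pos hi, hdeg, hcast]
    have : (k : ℝ) - 1 ≠ 0 := by linarith
    field_simp
    simp

theorem fatChromatic_eq {V : Type} [Fintype V] {G : SimpleGraph V} {k : ℕ} {α : ℝ}
    {c : V → Fin k} (hc : IsFAT G k α c)
    (hub : ∀ (K : ℕ) (α' : ℝ) (c' : V → Fin K), IsFAT G K α' c' → K ≤ k) :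
    fatChromatic G = k := by
  refine le_antisymm ?_ ?_
  · refine csSup_le ⟨k, α, c, hc⟩ ?_
    rintro K ⟨α', c', h⟩
    exact hub K α' c' h
  · exact le_csSup ⟨k, by rintro K ⟨α', c', h⟩; exact hub K α' c' h⟩ ⟨α, c, hc⟩

/-- For every integer `k ≥ 2` and every rational `α` with `0 < α ≤ 1 / (k - 1)` there is a finite
connected graph (with at least two vertices) whose FAT chromatic number is `k` and which has a FAT
`k`-colouring with parameter `α`. -/
theorem result (k : ℕ) (hk : 2 ≤ k) (α : ℚ) (h0 : 0 < α) (h1 : α ≤ 1 / ((k : ℚ) - 1)) :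
    ∃ (V : Type) (_ : Fintype V) (G : SimpleGraph V), 2 ≤ Fintype.card V ∧ G.Connected ∧
      fatChromatic G = k ∧ ∃ c : V → Fin k, IsFAT G k (α : ℝ) c := by
  have hk1 : (1 : ℚ) ≤ (k : ℚ) - 1 := by
    have : (2 : ℚ) ≤ k := by exact_mod_cast hk
    linarith
  rcases h1.lt_or_eq with h1 | h1
  · -- the generic case
    have hnum : 0 < α.num := Rat.num_pos.2 h0
    obtain ⟨p, hp⟩ : ∃ p : ℕ, α.num = p := ⟨α.num.toNat, by omega⟩
    obtain ⟨q, hq, hα⟩ : ∃ q : ℕ, 0 < q ∧ α = (p : ℚ) / q := by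
      refine ⟨α.den, α.den_pos, ?_⟩
      have h := Rat.num_div_den α
      rw [hp, Int.cast_natCast] at h
      exact h.symm
    have hqQ : (0 : ℚ) < q := by exact_mod_cast hq
    have hlt : ((k : ℚ) - 1) * p < q := by
      rw [hα, div_lt_div_iff₀ hqQ (by linarith)] at h1
      linarith
    have hlt' : (k - 1) * p < q := by
      have : (((k - 1) * p : ℕ) : ℚ) < (q : ℕ) := by
        rw [Nat.cast_mul, Nat.cast_sub (by omega)]
        simpa using hlt
      exact_mod_cast this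
    set a := 2 * p with ha
    set b := 2 * (q - (k - 1) * p) with hb
    have hp0 : 0 < p := by omega
    have ha2 : 2 ≤ a := by omega
    have hb2 : 2 ≤ b := by omega
    have hαR : (α : ℝ) = (a : ℝ) / ((k - 1) * a + b) := by
      have e1 : ((k : ℝ) - 1) * a + b = 2 * q := by
        have e2 : ((k - 1) * a + b : ℕ) = 2 * q := by
          rw [ha, hb]
          have : (k - 1) * (2 * p) = 2 * ((k - 1) * p) := by ring
          omega
        have e3 : (((k - 1) * a + b : ℕ) : ℝ) = ((2 * q : ℕ) : ℝ) := by rw [e2]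
        rw [Nat.cast_add, Nat.cast_mul, Nat.cast_sub (by omega)] at e3
        simpa using e3
      rw [e1, hα, ha]
      push_cast
      have : (q : ℝ) ≠ 0 := by exact_mod_cast hq.ne'
      field_simp
    refine ⟨X a b × Fin k, inferInstance, GG a b k, ?_, conn_GG ha2 hb2 hk, ?_, (fun w => w.2), ?_⟩
    · exact hk.trans (card_bound (fat_GG ha2 hb2 hk))
    · exact fatChromatic_eq (fat_GG ha2 hb2 hk) (fun K α' c' h => upper ha2 hb2 hk h)
    · rw [hαR]
      exact fat_GG ha2 hb2 hk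
  · have hαR : (α : ℝ) = 1 / ((k : ℝ) - 1) := by
      rw [h1]
      push_cast
      ring
    refine ⟨Fin k, inferInstance, ⊤, by simpa using hk, ?_, ?_, fun v => v, ?_⟩
    · have : Nonempty (Fin k) := ⟨⟨0, by omega⟩⟩
      exact SimpleGraph.connected_top
    · exact fatChromatic_eq (fat_complete hk) (fun K α' c' h => by
        have := card_bound h
        rwa [Fintype.card_fin] at this)
    · rw [hαR]
      exact fat_complete hk

end Pool.Agent.Results.MP_2d49c6_co.FatPrescribed
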